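import Mathlib
import Pool.Agent.Q147.ZScott

/-!
# MP_150402_gt : `C(Y, Z)` with the topology `t₁^Z` need not be regular for regular `Z`

The space `Z` is the two-point discrete space and `Y` is a countable Hausdorff space with a single
non-isolated point, whose neighbourhood filter is the Fubini square of a free ultrafilter.
`t1 Y Z`, `IsZScott Y Z`, `OZ Y Z` are defined in `Pool.Agent.Q147.ZScott`.
-/

namespace Pool.Agent.Results.MP_150402_gt.ScottNotRegular

open Set Filter Topology TopologicalSpace Pool.Agent.Q147.ZScott

/-- There are topological spaces `Y`, `Z` with `Z` regular (even finite and discrete, and `Y`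
countable, Hausdorff and with only one non-isolated point) such that `C(Y, Z)` with the topology
`t₁^Z` is not regular. -/
theorem result : ∃ (Y Z : Type) (_ : TopologicalSpace Y) (_ : TopologicalSpace Z),
    T2Space Y ∧ Countable Y ∧ (∃ a : Y, ∀ y, y ≠ a → IsOpen ({y} : Set Y)) ∧
      Finite Z ∧ DiscreteTopology Z ∧ RegularSpace Z ∧ ¬ @RegularSpace C(Y, Z) (t1 Y Z) := by
  refine ⟨Y, Bool, inferInstance, inferInstance, inferInstance, inferInstance, ⟨inf, ?_⟩,
    inferInstance, inferInstance, inferInstance, not_regular⟩
  intro y hy
  rcases Y_cases y with rfl | ⟨x, rfl⟩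
  · exact (hy rfl).elim
  · exact isOpen_pt x

end Pool.Agent.Results.MP_150402_gt.ScottNotRegular
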